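import Pool.Agent.H54.LR.Split

/-! Splitting the large series sets. -/

set_option linter.unusedSectionVars false

open Module Submodule H15 H81.WK

namespace H81.LR

variable {ι : Type*} [Fintype ι] {E : Type*} [AddCommGroup E] [Module ℝ E]
  [FiniteDimensional ℝ E] {w : ι → E}

/-- **SPLIT**, section 8 of the note. -/
theorem split {j κ f s Q : ℕ} (hF : Fam w j κ f s) (hj : 1 ≤ j) (hs : s ≤ κ + f) {C K H : Set ι}
    (hCH : Disjoint C H) (hKC : K ⊆ C ∪ H) (hH : 2 * H.ncard + 5 ≤ κ + f)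
    (hcol : ∀ e ∈ C, cc w (Cᶜ ∪ {e}) = 0) (hQ : 1 ≤ Q)
    (hM : 6 * (j + 1) * (Q + 1) ≤ (C \ K).ncard) :
    ∃ C' : Set ι, ∃ t : ℕ, C ⊆ C' ∧ Disjoint C' H ∧ (∀ e ∈ C', cc w (C'ᶜ ∪ {e}) = 0) ∧
      (∀ Z, Z ⊆ C' \ K → Z.ncard ≤ cc w (C'ᶜ ∪ Z) + 1 → 2 * Z.ncard ≤ (C' \ K).ncard) ∧
      Q * t ≤ (C \ K).ncard ∧ C'.ncard ≤ C.ncard + t + 1 :=
  H54.LR.split hF hj hs hCH hKC hH hcol hQ hM

/-- series sets are small if `C` is large. -/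
theorem ser_small {j κ f s a : ℕ} (hF : Fam w j κ f s) {C Z : Set ι}
    (hC : C.ncard = κ + j + 1 + a) (ha : s + 2 ≤ a) (_hZ : Z ⊆ C)
    (hZs : Z.ncard ≤ cc w (Cᶜ ∪ Z) + 1) : Z.ncard ≤ j := by
  by_contra hcon
  push Not at hcon
  have h1 := cap hF (W := Cᶜ ∪ Z) (by omega)
  have h2 : (Cᶜ ∪ Z).ncard ≤ (Cᶜ).ncard + Z.ncard := Set.ncard_union_le _ _
  have h3 := Set.ncard_add_ncard_compl C
  rw [Nat.card_eq_fintype_card] at h3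
  have h4 := hF.dim
  have h5 := hF.card
  omega

end H81.LR
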