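import Pool.Agent.H97.LR.Balance

/-! Balanced generic dependencies with full support. -/

set_option linter.unusedSectionVars false

open Module Submodule H15 H81.WK

namespace H81.LR

variable {ι : Type*} [Fintype ι] {E : Type*} [AddCommGroup E] [Module ℝ E]
  [FiniteDimensional ℝ E] {w : ι → E}

/-- `dim Dep w C = |C| - dim sp(C)`. -/
theorem finrank_Dep (w : ι → E) (C : Set ι) :
    finrank ℝ (Dep w C) + finrank ℝ (sp w C) = C.ncard :=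
  H97.LR.finrank_Dep w C

/-- if all dependencies of `C` agree on `Z` with dependencies of `N` then `|Z| ≤ c(Cᶜ ∪ Z) + dim Dep N`. -/
theorem ncard_le_of_agr {C Z : Set ι} {V : Submodule ℝ (ι → ℝ)} (hsp : cc w Cᶜ = 0) (hZ : Z ⊆ C)
    (h : ∀ c ∈ Dep w C, ∃ d ∈ V, ∀ i ∈ Z, c i = d i) :
    Z.ncard ≤ cc w (Cᶜ ∪ Z) + finrank ℝ V :=
  H97.LR.ncard_le_of_agr hsp hZ h

/-- generic dependencies. -/
theorem exists_gen_dep (w : ι → E) (C : Set ι) {κ' : Type*} [Finite κ']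
    (U : κ' → Submodule ℝ (ι → ℝ)) (hU : ∀ k, ¬ Dep w C ≤ U k) : ∃ c ∈ Dep w C, ∀ k, c ∉ U k := by
  obtain ⟨z, hz⟩ := H15.exists_generic (V := Dep w C) (fun k => (U k).comap (Dep w C).subtype) (by
    intro k hk
    apply hU k
    intro x hx
    have : (⟨x, hx⟩ : Dep w C) ∈ (⊤ : Submodule ℝ (Dep w C)) := Submodule.mem_top
    rw [← hk] at this
    exact this)
  exact ⟨z, z.2, fun k hk => hz k hk⟩

/-- **BALANCE**, section 9 of the note. -/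
theorem balance {C W : Set ι} (hsp : cc w Cᶜ = 0) (hcol : ∀ e ∈ C, cc w (Cᶜ ∪ {e}) = 0)
    (hW : W ⊆ C) (hser : ∀ Z, Z ⊆ W → Z.ncard ≤ cc w (Cᶜ ∪ Z) + 1 → 2 * Z.ncard ≤ W.ncard)
    {κ' : Type*} [Finite κ'] (U : κ' → Submodule ℝ (ι → ℝ)) (hU : ∀ k, ¬ Dep w C ≤ U k) :
    ∃ c ∈ Dep w C, (∀ i ∈ C, c i ≠ 0) ∧ (∀ k, c ∉ U k) ∧
      W.ncard ≤ 4 * {i | i ∈ W ∧ 0 < c i}.ncard ∧ W.ncard ≤ 4 * {i | i ∈ W ∧ c i < 0}.ncard :=
  H97.LR.balance hsp hcol hW hser U hU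

end H81.LR
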