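import Pool.Agent.H81.LR.Defs

/-! The calculus of the dual nullity. -/

set_option linter.unusedSectionVars false

open Module Submodule H15 H81.WK

namespace H81.LR

variable {ι : Type*} [Fintype ι] {E : Type*} [AddCommGroup E] [Module ℝ E]
  [FiniteDimensional ℝ E] {w : ι → E} {X Y W : Set ι}

theorem cc_add (w : ι → E) (W : Set ι) : cc w W + finrank ℝ (sp w Wᶜ) = finrank ℝ E := by
  unfold cc
  have := Submodule.finrank_le (sp w Wᶜ)
  omega

theorem cc_mono (h : X ⊆ Y) : cc w X ≤ cc w Y := by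
  have h1 := cc_add w X
  have h2 := cc_add w Y
  have h3 : finrank ℝ (sp w Yᶜ) ≤ finrank ℝ (sp w Xᶜ) :=
    Submodule.finrank_mono (sp_mono (Set.compl_subset_compl.2 h))
  omega

/-- supermodularity. -/
theorem cc_super (w : ι → E) (X Y : Set ι) : cc w X + cc w Y ≤ cc w (X ∪ Y) + cc w (X ∩ Y) := by
  have h1 := cc_add w X
  have h2 := cc_add w Y
  have h3 := cc_add w (X ∪ Y)
  have h4 := cc_add w (X ∩ Y)
  have h5 := finrank_LL (v := w) (X := Xᶜ) (Y := Yᶜ)
  rw [← Set.compl_inter] at h5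
  have h6 : finrank ℝ (sp w (X ∪ Y)ᶜ) ≤ finrank ℝ (LL w Xᶜ Yᶜ) := by
    refine Submodule.finrank_mono ?_
    rw [Set.compl_union]
    exact le_inf (sp_mono Set.inter_subset_left) (sp_mono Set.inter_subset_right)
  omega

theorem cc_insert_le (e : ι) (X : Set ι) : cc w (insert e X) ≤ cc w X + 1 := by
  classical
  have h1 := cc_add w X
  have h2 := cc_add w (insert e X)
  have h3 : sp w Xᶜ ≤ span ℝ {w e} ⊔ sp w (insert e X)ᶜ := by
    rw [← sp_insert]
    refine sp_mono fun i hi => ?_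
    by_cases h : i = e
    · exact Or.inl h
    · exact Or.inr fun h' => h'.elim h hi
  have h4 := Submodule.finrank_mono h3
  by_cases h : w e ∈ sp w (insert e X)ᶜ
  · have : span ℝ {w e} ⊔ sp w (insert e X)ᶜ = sp w (insert e X)ᶜ := by
      rw [sup_eq_right, span_singleton_le_iff_mem]
      exact h
    rw [this] at h4
    omega
  · rw [finrank_sup_singleton h] at h4
    omega

theorem cc_union_le (X Y : Set ι) : cc w (X ∪ Y) ≤ cc w X + Y.ncard := by
  classical
  induction Y, Set.toFinite Y using Set.Finite.induction_on with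
  | empty => simp
  | @insert a s ha hs ih =>
    rw [Set.union_insert, Set.ncard_insert_of_notMem ha]
    have := cc_insert_le (w := w) a (X ∪ s)
    omega

theorem cc_le_diff (h : X ⊆ Y) : cc w Y ≤ cc w X + (Y \ X).ncard := by
  have := cc_union_le (w := w) X (Y \ X)
  rwa [Set.union_sdiff_cancel h] at this

theorem cc_empty_iff : cc w ∅ = 0 ↔ sp w Set.univ = ⊤ := by
  have h1 := cc_add w (∅ : Set ι)
  rw [Set.compl_empty] at h1
  constructor
  · intro h
    exact Submodule.eq_top_of_finrank_eq (by omega)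
  · intro h
    rw [h, finrank_top] at h1
    omega

theorem cc_eq_zero_iff : cc w X = 0 ↔ sp w Xᶜ = ⊤ := by
  have h1 := cc_add w X
  constructor
  · intro h
    exact Submodule.eq_top_of_finrank_eq (by omega)
  · intro h
    rw [h, finrank_top] at h1
    omega

theorem cc_le_ncard (h : cc w ∅ = 0) (X : Set ι) : cc w X ≤ X.ncard := by
  have := cc_union_le (w := w) ∅ X
  rw [Set.empty_union] at this
  omega

theorem Fam.cc_single {j κ f s : ℕ} (hF : Fam w j κ f s) (e : ι) : cc w {e} = 0 :=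
  cc_eq_zero_iff.2 (hF.col e)

theorem Fam.cc_empty {j κ f s : ℕ} (hF : Fam w j κ f s) (hj : 1 ≤ j) : cc w ∅ = 0 := by
  have h1 := hF.dim
  have h2 := hF.card
  rcases isEmpty_or_nonempty ι with h | ⟨⟨e⟩⟩
  · -- then `dim E = 0`
    exfalso
    have h4 : Fintype.card ι = 0 := Fintype.card_eq_zero
    omega
  · have := cc_mono (w := w) (Set.empty_subset {e})
    have := Fam.cc_single hF e
    omega

/-- **CAP**. -/
theorem cap {j κ f s : ℕ} (hF : Fam w j κ f s) {W : Set ι} (h : j ≤ cc w W) :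
    κ + f + cc w W ≤ W.ncard + 1 := by
  have h1 := cc_add w W
  have h2 := hF.dim
  have h3 := hF.card
  have h4 := hF.fc (sp w Wᶜ) (by omega)
  have h5 : (Wᶜ).ncard ≤ {i | w i ∈ sp w Wᶜ}.ncard :=
    Set.ncard_le_ncard (fun i hi => mem_sp hi) (Set.toFinite _)
  have h6 := Set.ncard_add_ncard_compl W
  rw [Nat.card_eq_fintype_card] at h6
  omega

theorem cc_lt_of_ncard {j κ f s : ℕ} (hF : Fam w j κ f s) {W : Set ι} (h : W.ncard + 2 ≤ κ + f + j) :
    cc w W < j := by
  by_contra hcon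
  have := cap hF (not_lt.1 hcon)
  omega

/-- an element outside the span lowers `cc`. -/
theorem cc_insert_compl {C R : Set ι} {g : ι} (hg : g ∉ C) (hR : R ⊆ C)
    (h : w g ∉ sp w (C \ R)) : cc w ((insert g C)ᶜ ∪ R) + 1 = cc w (Cᶜ ∪ R) := by
  have h1 := cc_add w (Cᶜ ∪ R)
  have h2 := cc_add w ((insert g C)ᶜ ∪ R)
  have e1 : (Cᶜ ∪ R)ᶜ = C \ R := by
    rw [Set.compl_union, compl_compl]; rfl
  have e2 : ((insert g C)ᶜ ∪ R)ᶜ = insert g (C \ R) := by
    rw [Set.compl_union, compl_compl]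
    ext i
    simp only [Set.mem_inter_iff, Set.mem_insert_iff, Set.mem_compl_iff, Set.mem_sdiff]
    constructor
    · rintro ⟨h3 | h3, h4⟩
      · exact Or.inl h3
      · exact Or.inr ⟨h3, h4⟩
    · rintro (h3 | ⟨h3, h4⟩)
      · exact ⟨Or.inl h3, fun h4 => hg (h3 ▸ hR h4)⟩
      · exact ⟨Or.inr h3, h4⟩
  rw [e1] at h1
  rw [e2, finrank_sp_insert h] at h2
  omega

end H81.LR
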