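import Pool.Agent.H15.LR.ChooseC
import Pool.Agent.H15.LR.ExistsC0

/-! The choice of `C`. -/

set_option linter.unusedSectionVars false

open Module Submodule H15 H81.WK

namespace H81.LR

variable {ι : Type*} [Fintype ι] {E : Type*} [AddCommGroup E] [Module ℝ E]
  [FiniteDimensional ℝ E] {w : ι → E}

/-- a basis of `E` inside `ι \ H` which extends a basis of `sp (K \ H)`, together with `K \ H`. -/
theorem exists_C0 {K H : Set ι} {b : ℕ} (h0 : cc w H = 0)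
    (hb : K.ncard ≤ finrank ℝ (sp w K) + b) :
    ∃ C₀ : Set ι, K \ H ⊆ C₀ ∧ Disjoint C₀ H ∧ cc w C₀ᶜ = 0 ∧ C₀.ncard ≤ finrank ℝ E + b :=
  H15.LR.exists_C0 h0 hb

/-- case X: `exists_C0`, `coverG`, `split` with `Q = M / (6 (j+1)) - 1 ≥ 12` (cost `≤ 7 (j+1) + 1`). -/
theorem exists_goodC {j κ f s b γ : ℕ} (hT : TFam w j κ f s) {K H : Set ι} (hHK : H ⊆ K)
    (hH0 : cc w H = 0) (hHe : ∀ e, cc w (insert e H) = 0) (hH : 2 * H.ncard + 5 ≤ κ + f)
    (hb : K.ncard ≤ finrank ℝ (sp w K) + b)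
    (hK : K.ncard + 84 * (j + 1) ≤ κ + j + 1) (hγ : 2 * κ < 65536 * (γ + 1))
    (hα : j + 1 + b ≤ κ) :
    ∃ (C : Set ι) (a : ℕ), a ≤ b + γ + 58 * j + 8 ∧ GoodC w j κ a K H C :=
  H15.LR.exists_goodC hT hHK hH0 hHe hH hb hK hγ hα

/-- case Y: `exists_C0`, `coverG`, then enlarge so that `a ≥ 2 s + 2` and use `ser_small`
(proof of helper31). -/
theorem exists_goodC' {j κ f s b γ α : ℕ} (hT : TFam w j κ f s) {K H : Set ι}
    (hH0 : cc w H = 0) (hHe : ∀ e, cc w (insert e H) = 0) (hH : 2 * H.ncard + 5 ≤ κ + f)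
    (hb : K.ncard ≤ finrank ℝ (sp w K) + b)
    (hK : K.ncard + 84 * (j + 1) ≤ κ + j + 1) (hγ : 2 * κ < 65536 * (γ + 1))
    (hα : j + 1 + α ≤ κ) (hα1 : b + γ + 51 * j ≤ α) (hα2 : 2 * s + 2 ≤ α) :
    ∃ (C : Set ι) (a : ℕ), a ≤ α ∧ 2 * s + 1 ≤ a ∧ GoodC w j κ a K H C := by
  classical
  have hF := hT.fam
  have hdim := hF.dim
  have hcard := hF.card
  obtain ⟨C₀, hKC, hC₀H, hC₀s, hC₀n⟩ := exists_C0 (w := w) (K := K) hH0 hb
  obtain ⟨C₁, t, h01, h1H, h1c, h1t, h1n⟩ := coverG hF hT.hj hT.hs hC₀H hH hC₀s hHe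
  have htγ : t ≤ γ := by omega
  have hs1 : cc w C₁ᶜ = 0 := by
    have := cc_mono (w := w) (Set.compl_subset_compl.2 h01)
    omega
  have hlow : κ + j + 1 ≤ C₁.ncard := by
    have h2 : sp w C₁ = ⊤ := by
      have := cc_eq_zero_iff.1 hs1
      rwa [compl_compl] at this
    have h3 : finrank ℝ (sp w C₁) ≤ C₁.ncard := finrank_sp_le
    rw [h2, finrank_top] at h3
    omega
  have hHn := Set.ncard_add_ncard_compl H
  rw [Nat.card_eq_fintype_card] at hHn
  -- the enlargement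
  have hex : ∃ C : Set ι, C₁ ⊆ C ∧ C ⊆ Hᶜ ∧
      C.ncard = max C₁.ncard (κ + j + 1 + (2 * s + 2)) := by
    have h1H' : C₁ ⊆ Hᶜ := fun i hi hi' => Set.disjoint_left.1 h1H hi hi'
    obtain ⟨C, h2, h3, h4⟩ := Set.exists_subsuperset_card_eq h1H'
      (n := max C₁.ncard (κ + j + 1 + (2 * s + 2))) (le_max_left _ _) (by
        have h5 : C₁.ncard ≤ (Hᶜ).ncard := Set.ncard_le_ncard h1H' (Set.toFinite _)
        omega)
    exact ⟨C, h2, h3, h4⟩
  obtain ⟨C, h1C, hCH, hCn⟩ := hex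
  have hsC : cc w Cᶜ = 0 := by
    have := cc_mono (w := w) (Set.compl_subset_compl.2 h1C)
    omega
  refine ⟨C, C.ncard - (κ + j + 1), by omega, by omega, ?_⟩
  have hCa : C.ncard = κ + j + 1 + (C.ncard - (κ + j + 1)) := by omega
  refine ⟨fun i hi => h1C (h01 (hKC hi)), ?_, hCa, ?_, hsC, ?_⟩
  · rw [Set.disjoint_left]
    exact fun i hi hi' => hCH hi hi'
  · intro e he
    by_cases h : e ∈ C₁
    · have h2 : Cᶜ ∪ {e} ⊆ C₁ᶜ ∪ {e} :=
        Set.union_subset_union_left _ (Set.compl_subset_compl.2 h1C)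
      have h3 := cc_mono (w := w) h2
      have h4 := h1c e h
      omega
    · have h2 : Cᶜ ∪ {e} ⊆ C₁ᶜ := by
        rintro i (hi | hi)
        · exact fun hi' => hi (h1C hi')
        · rw [Set.mem_singleton_iff] at hi
          rw [hi]
          exact h
      have h3 := cc_mono (w := w) h2
      omega
  · intro Z hZ hZs
    have h2 : Z.ncard ≤ j := ser_small hF hCa (by omega) (fun i hi => (hZ hi).1) hZs
    have h3 : C.ncard ≤ (C \ K).ncard + K.ncard := by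
      have := Set.ncard_le_ncard_sdiff_add_ncard C K (Set.toFinite _)
      exact this
    omega

end H81.LR
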