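import Pool.Agent.H30.LR.Cover2

/-! Covering the coloops. -/

set_option linter.unusedSectionVars false

open Module Submodule H15 H81.WK

namespace H81.LR

variable {ι : Type*} [Fintype ι] {E : Type*} [AddCommGroup E] [Module ℝ E]
  [FiniteDimensional ℝ E] {w : ι → E}

/-- **COVER**: 16 halvings, then one by one. -/
theorem coverG {j κ f s : ℕ} (hF : Fam w j κ f s) (hj : 1 ≤ j) (hs : s ≤ κ + f) {C₀ H : Set ι}
    (hCH : Disjoint C₀ H) (hH : 2 * H.ncard + 5 ≤ κ + f) (hsp : cc w C₀ᶜ = 0)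
    (hHe : ∀ e, cc w (insert e H) = 0) :
    ∃ C : Set ι, ∃ t : ℕ, C₀ ⊆ C ∧ Disjoint C H ∧ (∀ e ∈ C, cc w (Cᶜ ∪ {e}) = 0) ∧
      65536 * t ≤ C₀.ncard ∧ C.ncard ≤ C₀.ncard + t + 51 * j := by
  obtain ⟨C, t, h1, h2, h3, h4, h5⟩ := H30.LRF.cover2 16 hF hj hs hCH hH hsp hHe
  exact ⟨C, t, h1, h2, h3, by norm_num at h4; exact h4, by omega⟩

end H81.LR
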