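import Pool.Agent.H81.WK.Defs

/-!
# The linear range of MP_19149c_co: `n(k, k+j) = 3k + j` for `k ≥ C j`.

Definitions: dual nullity `cc`, the quotient family `TFam`, the maximiser `Kmax`, dependencies `Dep`.
Proof: think note 2620.
-/

set_option linter.unusedSectionVars false

open Module Submodule H15 H81.WK

namespace H81.LR

variable {ι : Type*} [Fintype ι] {E : Type*} [AddCommGroup E] [Module ℝ E]
  [FiniteDimensional ℝ E]

/-- the dual nullity `c(W) = dim E - dim sp(w(Wᶜ))`. -/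
noncomputable def cc (w : ι → E) (W : Set ι) : ℕ := finrank ℝ E - finrank ℝ (sp w Wᶜ)

/-- the hypotheses on the quotient family (without its zero vectors). -/
structure TFam (w : ι → E) (j κ f s : ℕ) : Prop where
  fam : Fam w j κ f s
  bdd : Bdd w κ
  three : ∀ G : Submodule ℝ E, {i | w i ∈ G}.ncard ≤ 3 * finrank ℝ G
  hf : (f = 0 ∧ s = κ) ∨ 2 ≤ f
  hs : s ≤ κ + f
  hj : 1 ≤ j

/-- `D` maximises `3 c(L) - |L|` among the sets with at most `B` elements. -/
structure Kmax (w : ι → E) (B : ℕ) (D : Set ι) : Prop where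
  le : D.ncard ≤ B
  max : ∀ L : Set ι, L.ncard ≤ B → 3 * cc w L + D.ncard ≤ 3 * cc w D + L.ncard

/-- the dependencies with support in `C`. -/
def Dep (w : ι → E) (C : Set ι) : Submodule ℝ (ι → ℝ) where
  carrier := {c | (∀ i, i ∉ C → c i = 0) ∧ ∑ i, c i • w i = 0}
  add_mem' := by
    rintro a b ⟨ha, ha'⟩ ⟨hb, hb'⟩
    refine ⟨fun i hi => by simp [ha i hi, hb i hi], ?_⟩
    simp only [Pi.add_apply, add_smul, Finset.sum_add_distrib, ha', hb', add_zero]
  zero_mem' := ⟨fun i _ => rfl, by simp⟩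
  smul_mem' := by
    rintro t a ⟨ha, ha'⟩
    refine ⟨fun i hi => by simp [ha i hi], ?_⟩
    simp only [Pi.smul_apply, smul_eq_mul, mul_smul, ← Finset.smul_sum, ha', smul_zero]

/-- the vectors which agree on `Z` with a dependency supported in `N`. -/
def Agr (w : ι → E) (Z N : Set ι) : Submodule ℝ (ι → ℝ) where
  carrier := {c | ∃ d ∈ Dep w N, ∀ i ∈ Z, c i = d i}
  add_mem' := by
    rintro a b ⟨d, hd, h1⟩ ⟨d', hd', h2⟩
    exact ⟨d + d', add_mem hd hd', fun i hi => by simp [h1 i hi, h2 i hi]⟩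
  zero_mem' := ⟨0, zero_mem _, fun i _ => rfl⟩
  smul_mem' := by
    rintro t a ⟨d, hd, h1⟩
    exact ⟨t • d, Submodule.smul_mem _ _ hd, fun i hi => by simp [h1 i hi]⟩

end H81.LR
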