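import Pool.Agent.H30.LR.FailF

/-! The failing cells, in terms of `cc`. -/

set_option linter.unusedSectionVars false

open Module Submodule H15 H81.WK

namespace H81.LR

variable {ι : Type*} [Fintype ι] {E : Type*} [AddCommGroup E] [Module ℝ E]
  [FiniteDimensional ℝ E] {w : ι → E}

/-- **FAIL**, section 2 of the note. (From `H81.WK.exists_fail`, `A = (P ∪ N)ᶜ \ E'`.) -/
theorem fail {j κ : ℕ} (hb : Bdd w κ) (hdim : finrank ℝ E = κ + j + 1) {P N : Set ι}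
    (h : SVec w P N) (hsp : cc w (P ∪ N)ᶜ = 0) :
    ∃ A : Set ι, A ⊆ (P ∪ N)ᶜ ∧ j + 1 + A.ncard ≤ cc w (P ∪ A) + cc w (N ∪ A) :=
  H30.LRF.fail hb hdim h hsp

/-- **FAIL with exclusions** (X) `5 + 3a < 5f + s` or (Y) `2 ≤ f` and `N` independent. -/
theorem fail_good {j κ f s a : ℕ} (hT : TFam w j κ f s) {P N : Set ι}
    (h : SVec w P N) (hsp : cc w (P ∪ N)ᶜ = 0) (hC : (P ∪ N).ncard = κ + j + 1 + a)
    (hP : P.ncard ≤ κ + f) (hN : N.ncard ≤ κ + f)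
    (hx : 5 + 3 * a < 5 * f + s ∨ (2 ≤ f ∧ LinearIndepOn ℝ w N)) :
    ∃ A : Set ι, A ⊆ (P ∪ N)ᶜ ∧ j + 1 + A.ncard ≤ cc w (P ∪ A) + cc w (N ∪ A) ∧
      cc w (P ∪ A) < j ∧ cc w (N ∪ A) < j :=
  H30.LRF.fail_good hT h hsp hC hP hN hx

end H81.LR
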