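import Pool.Agent.H81.LR.CoverG
import Pool.Agent.H81.LR.Split

/-! The properties of `C` used in a round. -/

set_option linter.unusedSectionVars false

open Module Submodule H15 H81.WK

namespace H81.LR

variable {ι : Type*} [Fintype ι] {E : Type*} [AddCommGroup E] [Module ℝ E]
  [FiniteDimensional ℝ E] {w : ι → E}

/-- the properties of `C` used in a round. -/
structure GoodC (w : ι → E) (j κ a : ℕ) (K H C : Set ι) : Prop where
  sub : K \ H ⊆ C
  dis : Disjoint C H
  card : C.ncard = κ + j + 1 + a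
  col : ∀ e ∈ C, cc w (Cᶜ ∪ {e}) = 0
  span : cc w Cᶜ = 0
  ser : ∀ Z, Z ⊆ C \ K → Z.ncard ≤ cc w (Cᶜ ∪ Z) + 1 → 2 * Z.ncard ≤ (C \ K).ncard

end H81.LR
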