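import Pool.Agent.H42.LR.GreedyS

/-! The maximiser `D` and the greedy set `H`. -/

set_option linter.unusedSectionVars false

open Module Submodule H15 H81.WK

namespace H81.LR

variable {ι : Type*} [Fintype ι] {E : Type*} [AddCommGroup E] [Module ℝ E]
  [FiniteDimensional ℝ E] {w : ι → E}

theorem exists_Kmax (w : ι → E) (B : ℕ) : ∃ D : Set ι, Kmax w B D :=
  H42.LR.exists_Kmax w B

theorem Kmax.ncard_le {B : ℕ} {D : Set ι} (hD : Kmax w B D) (h0 : cc w ∅ = 0) :
    D.ncard ≤ 3 * cc w D := by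
  have := hD.max ∅ (by simp)
  rw [h0] at this
  simpa using this

/-- **GREEDY**, section 5 of the note. -/
theorem greedy {B : ℕ} {D K : Set ι} (hD : Kmax w B D) (hDK : D ⊆ K) (hK : K.ncard ≤ B)
    (hB : D.ncard + 3 * cc w K + 5 ≤ B) :
    ∃ H : Set ι, H ⊆ K \ D ∧ 2 * H.ncard ≤ cc w K + 1 ∧
      2 * cc w (K \ H) ≤ cc w K + cc w D ∧ ∀ e, cc w (insert e (D ∪ H)) = cc w D :=
  H42.LR.greedy_set hD hDK hK hB

/-- `ι \ H` is spanning and coloopless. -/
theorem greedy_free {D H : Set ι} (h0 : cc w ∅ = 0) (h1 : ∀ e, cc w {e} = 0) (hDH : Disjoint D H)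
    (h : ∀ e, cc w (insert e (D ∪ H)) = cc w D) : cc w H = 0 ∧ ∀ e, cc w (insert e H) = 0 := by
  have key : ∀ e, cc w (insert e H) = 0 := by
    intro e
    have h2 := cc_super w (insert e H) D
    have e1 : insert e H ∪ D = insert e (D ∪ H) := by
      rw [Set.insert_union, Set.union_comm]
    have h3 : cc w (insert e H ∩ D) = 0 := by
      have : insert e H ∩ D ⊆ {e} := by
        rintro i ⟨hi | hi, hi'⟩
        · exact hi
        · exact absurd hi (Set.disjoint_left.1 hDH hi')
      have h4 := cc_mono (w := w) this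
      rw [h1 e] at h4
      omega
    rw [e1, h e, h3] at h2
    omega
  refine ⟨?_, key⟩
  rcases isEmpty_or_nonempty ι with hi | ⟨⟨e⟩⟩
  · have : H = ∅ := Set.eq_empty_of_isEmpty H
    rw [this, h0]
  · have := cc_mono (w := w) (Set.subset_insert e H)
    have := key e
    omega

end H81.LR
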