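import Pool.Agent.H81.LR.Three
import Pool.Agent.H9.LR.Ind

/-! The constants. -/

set_option linter.unusedSectionVars false

open Module Submodule H15 H81.WK

namespace H81.LR

/-- **there is no quotient family with `κ + f ≥ 320000 (j + 1)`.** -/
theorem core : H9.LR.Core 320000 := by
  intro j κ f s ι _ E _ _ _ w hT hk
  have hj := hT.hj
  have h1 := hT.three ⊤
  have h2 : {i | w i ∈ (⊤ : Submodule ℝ E)} = Set.univ := by ext i; simp
  rw [h2, Set.ncard_univ, Nat.card_eq_fintype_card, finrank_top, hT.fam.dim] at h1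
  have h3 := hT.fam.card
  rw [hT.fam.dim] at h3
  obtain ⟨γ, hγ⟩ : ∃ γ, γ = 2 * κ / 65536 := ⟨_, rfl⟩
  obtain ⟨c, hc⟩ : ∃ c, c = γ + 58 * j + 8 := ⟨_, rfl⟩
  by_cases hx : 5 + 3 * (3 * j + c + 4 * j + 2 * c) < 5 * f + s
  · exact three_rounds hT (γ := γ) (c := c) (α := 3 * j + c) (by omega) (by omega) (by omega)
      (Or.inl hx) (by omega)
  · have hf : 2 ≤ f := by
      rcases hT.hf with ⟨hf, hs⟩ | hf
      · omega
      · exact hf
    exact three_rounds hT (γ := γ) (c := c) (α := 42 * j + 18 * c) (by omega) (by omega) (by omega)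
      (Or.inr ⟨hf, by omega⟩) (by omega)

end H81.LR
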