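import Pool.Agent.H81.LR.PN

/-! One round. -/

set_option linter.unusedSectionVars false

open Module Submodule H15 H81.WK

namespace H81.LR

variable {ι : Type*} [Fintype ι] {E : Type*} [AddCommGroup E] [Module ℝ E]
  [FiniteDimensional ℝ E] {w : ι → E}

/-- the nullity of `K'` if `K' ⊆ C ∪ H ∪ A`. -/
theorem nullity_le {j κ a : ℕ} {K H C K' A : Set ι} (hdim : finrank ℝ E = κ + j + 1)
    (hC : GoodC w j κ a K H C) (hK' : K' ⊆ C ∪ H ∪ A) :
    K'.ncard ≤ finrank ℝ (sp w K') + (a + H.ncard + A.ncard) := by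
  -- `dim sp(K') ≥ dim sp(C) - |C \ K'| = ρ - |C \ K'|`
  have h1 : finrank ℝ (sp w C) = κ + j + 1 := by
    have := cc_eq_zero_iff.1 hC.span
    rw [compl_compl] at this
    rw [this, finrank_top, hdim]
  have h2 : sp w C ≤ sp w K' ⊔ sp w (C \ K') := by
    rw [← sp_union]
    exact sp_mono fun i hi => by
      by_cases h : i ∈ K'
      · exact Or.inl h
      · exact Or.inr ⟨hi, h⟩
  have h3 := Submodule.finrank_mono h2
  have h4 := Submodule.finrank_add_le_finrank_add_finrank (sp w K') (sp w (C \ K'))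
  have h5 : finrank ℝ (sp w (C \ K')) ≤ (C \ K').ncard := finrank_sp_le
  have h6 : (C ∩ K').ncard + (C \ K').ncard = C.ncard :=
    Set.ncard_inter_add_ncard_sdiff_eq_ncard C K' (Set.toFinite _)
  have h7 : K' ⊆ (C ∩ K') ∪ H ∪ A := by
    intro i hi
    rcases hK' hi with (h | h) | h
    · exact Or.inl (Or.inl ⟨h, hi⟩)
    · exact Or.inl (Or.inr h)
    · exact Or.inr h
  have h8 := Set.ncard_le_ncard h7 (Set.toFinite _)
  have h9 := Set.ncard_union_le ((C ∩ K') ∪ H) A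
  have h10 := Set.ncard_union_le (C ∩ K') H
  have h11 := hC.card
  omega

/-- one of the two sides of a cell is the new `K`. -/
theorem step_side {j κ f s a σ : ℕ} (hT : TFam w j κ f s) {D K H C : Set ι}
    (hHK : H ⊆ K) (hKc : 2 * cc w (K \ H) ≤ cc w K + cc w D)
    (hC : GoodC w j κ a K H C) {P N : Set ι} (hPN : SVec w P N) (hPNC : P ∪ N = C)
    (hP : (C \ K).ncard ≤ 4 * (P \ K).ncard + 4 * σ)
    (hN : (C \ K).ncard ≤ 4 * (N \ K).ncard + 4 * σ)
    (hbal : 4 * (a + j + 1 + σ) ≤ (C \ K).ncard)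
    (hx : 5 + 3 * a < 5 * f + s ∨ (2 ≤ f ∧ LinearIndepOn ℝ w N)) :
    ∃ K' : Set ι, K ⊆ K' ∧ 3 * cc w K + 2 * j + 2 ≤ 4 * cc w K' + cc w D ∧
      4 * K'.ncard + 12 ≤ K.ncard + 3 * (κ + j + 1 + a + H.ncard) + 4 * σ + 4 * j ∧
      K'.ncard + 3 ≤ finrank ℝ (sp w K') + (a + H.ncard + j) := by
  classical
  have hdis := hPN.disjoint
  have hcardC := hC.card
  have e1 : (C \ K).ncard = (P \ K).ncard + (N \ K).ncard := by
    rw [← hPNC, Set.union_sdiff_distrib, Set.ncard_union_eq _ (Set.toFinite _) (Set.toFinite _)]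
    exact hdis.mono Set.sdiff_subset Set.sdiff_subset
  have e2 : C.ncard = P.ncard + N.ncard := by
    rw [← hPNC, Set.ncard_union_eq hdis (Set.toFinite _) (Set.toFinite _)]
  have e3 : (P \ K).ncard ≤ P.ncard := Set.ncard_le_ncard Set.sdiff_subset (Set.toFinite _)
  have e4 : (N \ K).ncard ≤ N.ncard := Set.ncard_le_ncard Set.sdiff_subset (Set.toFinite _)
  have hsp : cc w (P ∪ N)ᶜ = 0 := by rw [hPNC]; exact hC.span
  obtain ⟨A, hA, hA1, hA2, hA3⟩ := fail_good hT hPN hsp (by rw [hPNC]; exact hcardC) (by omega)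
    (by omega) hx
  have hr := round hdis hsp hA hA1 K
  have hAj : A.ncard + 3 ≤ j := by omega
  -- `K ∩ C = K \ H`
  have e5 : K ∩ (P ∪ N) = K \ H := by
    rw [hPNC]
    ext i
    constructor
    · rintro ⟨h1, h2⟩
      exact ⟨h1, Set.disjoint_left.1 hC.dis h2⟩
    · intro h
      exact ⟨h.1, hC.sub h⟩
  rw [e5] at hr
  -- cardinalities
  have e6 : (C ∩ K).ncard + (C \ K).ncard = C.ncard :=
    Set.ncard_inter_add_ncard_sdiff_eq_ncard C K (Set.toFinite _)
  have e7 : C ∩ K = K \ H := by rw [Set.inter_comm, ← hPNC]; exact e5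
  have e8 : (K \ H).ncard + H.ncard = K.ncard :=
    Set.ncard_sdiff_add_ncard_of_subset hHK (Set.toFinite _)
  rw [e7] at e6
  have hKsub : K ⊆ C ∪ H := by
    intro i hi
    by_cases h : i ∈ H
    · exact Or.inr h
    · exact Or.inl (hC.sub ⟨hi, h⟩)
  have side : ∀ S S' : Set ι, S ∪ S' = C → (C \ K).ncard = (S \ K).ncard + (S' \ K).ncard →
      (C \ K).ncard ≤ 4 * (S' \ K).ncard + 4 * σ →
      4 * (K ∪ S ∪ A).ncard + 12 ≤ K.ncard + 3 * (κ + j + 1 + a + H.ncard) + 4 * σ + 4 * j ∧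
      (K ∪ S ∪ A).ncard + 3 ≤ finrank ℝ (sp w (K ∪ S ∪ A)) + (a + H.ncard + j) := by
    intro S S' h1 h2 h3
    constructor
    · have h4 : K ∪ S ∪ A = K ∪ (S \ K) ∪ A := by rw [Set.union_sdiff_self]
      have h5 := Set.ncard_union_le (K ∪ (S \ K)) A
      have h6 := Set.ncard_union_le K (S \ K)
      rw [h4]
      omega
    · have h4 := nullity_le (w := w) (K' := K ∪ S ∪ A) (A := A) hT.fam.dim hC (by
        rintro i ((h | h) | h)
        · exact Or.inl (hKsub h)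
        · exact Or.inl (Or.inl (h1 ▸ Or.inl h))
        · exact Or.inr h)
      omega
  by_cases hmax : cc w (K ∪ N ∪ A) ≤ cc w (K ∪ P ∪ A)
  · obtain ⟨g1, g2⟩ := side P N hPNC e1 hN
    exact ⟨K ∪ P ∪ A, fun i hi => Or.inl (Or.inl hi), by omega, g1, g2⟩
  · obtain ⟨g1, g2⟩ := side N P (by rw [Set.union_comm]; exact hPNC) (by omega) hP
    exact ⟨K ∪ N ∪ A, fun i hi => Or.inl (Or.inl hi), by omega, g1, g2⟩

end H81.LR
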