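import Pool.Agent.H81.LR.Cfun

/-! The round inequality. -/

set_option linter.unusedSectionVars false

open Module Submodule H15 H81.WK

namespace H81.LR

variable {ι : Type*} [Fintype ι] {E : Type*} [AddCommGroup E] [Module ℝ E]
  [FiniteDimensional ℝ E] {w : ι → E}

/-- **ROUND**, section 3 of the note. -/
theorem round {j : ℕ} {P N A : Set ι} (hd : Disjoint P N) (hsp : cc w (P ∪ N)ᶜ = 0)
    (hA : A ⊆ (P ∪ N)ᶜ) (hA1 : j + 1 + A.ncard ≤ cc w (P ∪ A) + cc w (N ∪ A)) (K : Set ι) :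
    2 * cc w K + j + 1 ≤ cc w (K ∪ P ∪ A) + cc w (K ∪ N ∪ A) + cc w (K ∩ (P ∪ N)) := by
  have h1 := cc_super w K (P ∪ A)
  have h2 := cc_super w K (N ∪ A)
  have h3 := cc_super w (K ∩ (P ∪ A)) (K ∩ (N ∪ A))
  have e1 : K ∩ (P ∪ A) ∪ K ∩ (N ∪ A) = K ∩ (P ∪ N) ∪ K ∩ A := by
    ext i; simp only [Set.mem_union, Set.mem_inter_iff]; tauto
  have e2 : K ∩ (P ∪ A) ∩ (K ∩ (N ∪ A)) = K ∩ A := by
    ext i
    have h4 : i ∈ P → i ∈ N → False := fun hp hn => Set.disjoint_left.1 hd hp hn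
    simp only [Set.mem_union, Set.mem_inter_iff]
    tauto
  rw [e1, e2] at h3
  have h4 := cc_union_le (w := w) (K ∩ (P ∪ N)) (K ∩ A)
  have h5 : cc w (K ∩ A) ≤ cc w (P ∪ N)ᶜ := cc_mono (Set.inter_subset_right.trans hA)
  have h6 : (K ∩ A).ncard ≤ A.ncard := Set.ncard_le_ncard Set.inter_subset_right (Set.toFinite _)
  rw [← Set.union_assoc] at h1 h2
  omega

end H81.LR
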