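import Pool.Agent.H81.LR.Balance
import Pool.Agent.H42.LR.Vertex

/-! The vertex argument. -/

set_option linter.unusedSectionVars false

open Module Submodule H15 H81.WK

namespace H81.LR

variable {ι : Type*} [Fintype ι] {E : Type*} [AddCommGroup E] [Module ℝ E]
  [FiniteDimensional ℝ E] {w : ι → E}

/-- **VERTEX**, section 10 of the note. -/
theorem vertex {j κ f s a : ℕ} (hF : Fam w j κ f s) {C : Set ι} (hsp : cc w Cᶜ = 0)
    (hC : C.ncard = κ + j + 1 + a) (ha : 2 * s + 1 ≤ a) {c : ι → ℝ} (hc : c ∈ Dep w C)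
    (hne : ∀ i ∈ C, c i ≠ 0) (hN : {i | c i < 0}.ncard ≤ κ + 1)
    (hgen : ∀ Z N : Set ι, c ∈ Agr w Z N → Dep w C ≤ Agr w Z N) :
    ∃ P N : Set ι, SVec w P N ∧ P ∪ N = C ∧ LinearIndepOn ℝ w N ∧ N ⊆ {i | c i < 0} ∧
      ({i | c i < 0} \ N).ncard ≤ s + j :=
  H42.LR.vertex_core (fun C => finrank_Dep w C) (fun h1 h2 h3 => ncard_le_of_agr h1 h2 h3)
    hF hsp hC ha hc hne hN hgen

end H81.LR
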