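import Pool.Agent.H81.LR.ChooseC
import Pool.Agent.H81.LR.Vertex
import Pool.Agent.H81.LR.Fail
import Pool.Agent.H81.LR.Round
import Pool.Agent.H81.LR.Greedy

/-! From `C` to the signed vector. -/

set_option linter.unusedSectionVars false

open Module Submodule H15 H81.WK

namespace H81.LR

variable {ι : Type*} [Fintype ι] {E : Type*} [AddCommGroup E] [Module ℝ E]
  [FiniteDimensional ℝ E] {w : ι → E}

/-- a dependency gives a signed vector. -/
theorem svec_of_dep {C : Set ι} {c : ι → ℝ} (hc : c ∈ Dep w C) (hne : ∀ i ∈ C, c i ≠ 0) :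
    SVec w {i | 0 < c i} {i | c i < 0} ∧ {i | 0 < c i} ∪ {i | c i < 0} = C := by
  refine ⟨⟨c, hc.2, fun i => Iff.rfl, fun i => Iff.rfl⟩, ?_⟩
  ext i
  constructor
  · rintro (hi | hi)
    · by_contra hiC
      exact absurd (show (0 : ℝ) < c i from hi) (by rw [hc.1 i hiC]; exact lt_irrefl _)
    · by_contra hiC
      exact absurd (show c i < (0 : ℝ) from hi) (by rw [hc.1 i hiC]; exact lt_irrefl _)
  · intro hi
    rcases lt_or_gt_of_ne (hne i hi) with h | h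
    · exact Or.inr h
    · exact Or.inl h

/-- case X. -/
theorem exists_PN {j κ a : ℕ} {K H C : Set ι} (hC : GoodC w j κ a K H C) :
    ∃ P N : Set ι, SVec w P N ∧ P ∪ N = C ∧ (C \ K).ncard ≤ 4 * (P \ K).ncard ∧
      (C \ K).ncard ≤ 4 * (N \ K).ncard := by
  obtain ⟨c, hc, hne, -, h1, h2⟩ := balance (w := w) (C := C) (W := C \ K) hC.span hC.col
    Set.sdiff_subset hC.ser (κ' := Empty) (fun k => k.elim) (fun k => k.elim)
  obtain ⟨h3, h4⟩ := svec_of_dep hc hne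
  refine ⟨_, _, h3, h4, h1.trans (Nat.mul_le_mul_left _ ?_), h2.trans (Nat.mul_le_mul_left _ ?_)⟩
  · exact Set.ncard_le_ncard (fun i hi => ⟨hi.2, hi.1.2⟩) (Set.toFinite _)
  · exact Set.ncard_le_ncard (fun i hi => ⟨hi.2, hi.1.2⟩) (Set.toFinite _)

/-- case Y. -/
theorem exists_PN' {j κ f s a : ℕ} (hT : TFam w j κ f s) {K H C : Set ι} (hC : GoodC w j κ a K H C)
    (ha : 2 * s + 1 ≤ a) (hbig : 4 * (j + a) ≤ (C \ K).ncard) :
    ∃ P N : Set ι, SVec w P N ∧ P ∪ N = C ∧ LinearIndepOn ℝ w N ∧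
      (C \ K).ncard ≤ 4 * (P \ K).ncard ∧ (C \ K).ncard ≤ 4 * (N \ K).ncard + 4 * (s + j) := by
  classical
  obtain ⟨c, hc, hne, hgen, h1, h2⟩ := balance (w := w) (C := C) (W := C \ K) hC.span hC.col
    Set.sdiff_subset hC.ser (κ' := {p : Set ι × Set ι // ¬ Dep w C ≤ Agr w p.1 p.2})
    (fun p => Agr w p.1.1 p.1.2) (fun p => p.2)
  obtain ⟨h3, h4⟩ := svec_of_dep hc hne
  have hcount : {i | 0 < c i}.ncard + {i | c i < 0}.ncard = C.ncard := by
    rw [← h4, Set.ncard_union_eq _ (Set.toFinite _) (Set.toFinite _)]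
    rw [Set.disjoint_left]
    intro i hi hi'
    exact lt_asymm (show (0 : ℝ) < _ from hi) hi'
  have h5 : {i | i ∈ C \ K ∧ 0 < c i}.ncard ≤ {i | 0 < c i}.ncard :=
    Set.ncard_le_ncard (fun i hi => hi.2) (Set.toFinite _)
  have hcard := hC.card
  obtain ⟨P, N, g1, g2, g3, g4, g5⟩ := vertex hT.fam hC.span hC.card ha hc hne (by omega) (by
    intro Z N hZN
    by_contra hcon
    exact hgen ⟨(Z, N), hcon⟩ hZN)
  refine ⟨P, N, g1, g2, g3, ?_, ?_⟩
  · refine h1.trans (Nat.mul_le_mul_left _ (Set.ncard_le_ncard ?_ (Set.toFinite _)))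
    rintro i ⟨hi1, hi2⟩
    refine ⟨?_, hi1.2⟩
    have : i ∈ P ∪ N := g2 ▸ hi1.1
    rcases this with h | h
    · exact h
    · exact absurd (g4 h) (not_lt.2 (le_of_lt hi2))
  · have h6 : {i | i ∈ C \ K ∧ c i < 0} ⊆ (N \ K) ∪ ({i | c i < 0} \ N) := by
      rintro i ⟨hi1, hi2⟩
      by_cases h : i ∈ N
      · exact Or.inl ⟨h, hi1.2⟩
      · exact Or.inr ⟨hi2, h⟩
    have h7 := Set.ncard_le_ncard h6 (Set.toFinite _)
    have h8 := Set.ncard_union_le (N \ K) ({i | c i < 0} \ N)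
    omega

end H81.LR
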