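import Pool.Agent.H7.LR.Step

/-! The averaging lemma. -/

set_option linter.unusedSectionVars false

open Module Submodule H15 H81.WK

namespace H81.LR

variable {ι : Type*} [Fintype ι] {E : Type*} [AddCommGroup E] [Module ℝ E]
  [FiniteDimensional ℝ E] {w : ι → E}

/-- **STEP**, section 6 of the note. -/
theorem step {j κ f s m : ℕ} (hF : Fam w j κ f s) (hs : s ≤ κ + f) {C H : Set ι}
    (hCH : Disjoint C H) (hH : 2 * H.ncard + 5 ≤ κ + f) (hC : κ + j + 1 ≤ C.ncard) (hm : 1 ≤ m)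
    (R : Fin m → Set ι) (hRC : ∀ i, R i ⊆ C) (hRj : ∀ i, (R i).ncard ≤ j + 1)
    (hRc : ∀ i, j ≤ cc w (Cᶜ ∪ R i)) :
    ∃ g, g ∉ C ∧ g ∉ H ∧ m ≤ 3 * {i | w g ∉ sp w (C \ R i)}.ncard :=
  H7.LR.step hF hs hCH hH hC hm R hRC hRj hRc

/-- disjoint blocks of size `r` in a set. -/
theorem exists_blocks {Z : Set ι} {r m : ℕ} (h : r * m ≤ Z.ncard) :
    ∃ R : Fin m → Set ι, (∀ i, R i ⊆ Z) ∧ (∀ i, (R i).ncard = r) ∧
      ∀ i i', i ≠ i' → Disjoint (R i) (R i') :=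
  H7.LR.exists_blocks h

end H81.LR
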