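import Pool.Agent.H19.LR.Sweep

/-! The sweep: combinatorial part of BALANCE. -/

namespace H81.LR

/-- **sweep**: `x, y : ι → ℝ`, `y` has no zero on `W`; at each time at most half of `W` vanishes;
more than three quarters of `W` has `y > 0`. Then there is an open interval of times at which no element of
`W` vanishes and both sides have at least a quarter of `W`. -/
theorem sweep {ι : Type*} [Fintype ι] (x y : ι → ℝ) (W : Set ι) (hy : ∀ i ∈ W, y i ≠ 0)
    (hW : ∀ t : ℝ, 2 * {i | i ∈ W ∧ x i + t * y i = 0}.ncard ≤ W.ncard)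
    (hbig : 3 * W.ncard < 4 * {i | i ∈ W ∧ 0 < y i}.ncard) :
    ∃ a b : ℝ, a < b ∧ ∀ t, a < t → t < b → (∀ i ∈ W, x i + t * y i ≠ 0) ∧
      W.ncard ≤ 4 * {i | i ∈ W ∧ 0 < x i + t * y i}.ncard ∧
      W.ncard ≤ 4 * {i | i ∈ W ∧ x i + t * y i < 0}.ncard :=
  H19.LR.sweep x y W hy hW hbig

end H81.LR
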