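import Pool.Agent.H81.LR.OneRound

/-! Three rounds. -/

set_option linter.unusedSectionVars false

open Module Submodule H15 H81.WK

namespace H81.LR

variable {ι : Type*} [Fintype ι] {E : Type*} [AddCommGroup E] [Module ℝ E]
  [FiniteDimensional ℝ E] {w : ι → E}

/-- **one round**. -/
theorem one_round {j κ f s : ℕ} (hT : TFam w j κ f s) {D K : Set ι}
    (hD : Kmax w (κ + f + j - 2) D) (hDK : D ⊆ K) {b γ α y : ℕ}
    (hγ : 2 * κ < 65536 * (γ + 1)) (hα : b + γ + 58 * j + 8 ≤ α)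
    (hK : K.ncard + y ≤ κ) (hb : K.ncard ≤ finrank ℝ (sp w K) + b)
    (hcase : 5 + 3 * α < 5 * f + s ∨ (2 ≤ f ∧ 2 * s + 2 ≤ α))
    (hy2 : 6 * α + 8 * j + 10 ≤ y) :
    ∃ K' : Set ι, K ⊆ K' ∧ 3 * cc w K + 2 * j + 2 ≤ 4 * cc w K' + cc w D ∧
      4 * K'.ncard + y ≤ 4 * κ + 5 * α + 14 * j ∧
      K'.ncard ≤ finrank ℝ (sp w K') + (α + 2 * j) := by
  have hj := hT.hj
  have h0 := Fam.cc_empty hT.fam hj
  have hDc : D.ncard ≤ 3 * cc w D := hD.ncard_le h0
  have hDK' := cc_mono (w := w) hDK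
  have hKj : cc w K < j := cc_lt_of_ncard hT.fam (by omega)
  obtain ⟨H, hH1, hH2, hH3, hH4⟩ := greedy hD hDK (by omega) (by omega)
  have hHK : H ⊆ K := hH1.trans Set.sdiff_subset
  have hDH : Disjoint D H := by
    rw [Set.disjoint_left]
    intro i hi hi'
    exact (hH1 hi').2 hi
  obtain ⟨hH0, hHe⟩ := greedy_free h0 (fun e => Fam.cc_single hT.fam e) hDH hH4
  have e8 : (K \ H).ncard + H.ncard = K.ncard :=
    Set.ncard_sdiff_add_ncard_of_subset hHK (Set.toFinite _)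
  have hM : ∀ {C : Set ι} {a : ℕ}, GoodC w j κ a K H C → y + j + 1 + a ≤ (C \ K).ncard := by
    intro C a hC
    have e5 : C ∩ K ⊆ K \ H := fun i hi => ⟨hi.2, Set.disjoint_left.1 hC.dis hi.1⟩
    have e6 := Set.ncard_le_ncard e5 (Set.toFinite _)
    have e7 := Set.ncard_inter_add_ncard_sdiff_eq_ncard C K (Set.toFinite _)
    have e9 := hC.card
    omega
  rcases hcase with hx | ⟨hf, hs⟩
  · obtain ⟨C, a, ha, hC⟩ := exists_goodC (b := b) (γ := γ) hT hHK hH0 hHe (by omega) hb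
      (by omega) hγ (by omega)
    have hMC := hM hC
    obtain ⟨P, N, g1, g2, g3, g4⟩ := exists_PN hC
    obtain ⟨K', k1, k2, k3, k4⟩ := step_side (D := D) (σ := 0) hT hHK (by omega) hC g1 g2 (by omega)
      (by omega) (by omega) (Or.inl (by omega))
    exact ⟨K', k1, k2, by omega, by omega⟩
  · obtain ⟨C, a, ha, ha', hC⟩ := exists_goodC' (b := b) (γ := γ) (α := α) hT hH0 hHe
      (by omega) hb (by omega) hγ (by omega) (by omega) hs
    have hMC := hM hC
    obtain ⟨P, N, g1, g2, g5, g3, g4⟩ := exists_PN' hT hC ha' (by omega)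
    obtain ⟨K', k1, k2, k3, k4⟩ := step_side (D := D) (σ := s + j) hT hHK (by omega) hC g1 g2
      (by omega) (by omega) (by omega) (Or.inr ⟨hf, g5⟩)
    exact ⟨K', k1, k2, by omega, by omega⟩

/-- **three rounds**: contradiction. -/
theorem three_rounds {j κ f s : ℕ} (hT : TFam w j κ f s) {γ c α : ℕ}
    (hγ : 2 * κ < 65536 * (γ + 1)) (hc : γ + 58 * j + 8 ≤ c) (hα : 3 * j + c ≤ α)
    (hcase : 5 + 3 * (α + 4 * j + 2 * c) < 5 * f + s ∨ (2 ≤ f ∧ 2 * s + 2 ≤ α))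
    (hbig : 121 * α + 220 * (c + 2 * j) + 500 * j + 400 ≤ κ) : False := by
  have hj := hT.hj
  have h0 := Fam.cc_empty hT.fam hj
  obtain ⟨D, hD⟩ := exists_Kmax w (κ + f + j - 2)
  have hDc : D.ncard ≤ 3 * cc w D := hD.ncard_le h0
  have hDj : cc w D < j := cc_lt_of_ncard hT.fam (by have := hD.le; omega)
  obtain ⟨K₁, s1, c1, n1, b1⟩ := one_round hT hD (le_refl D) (b := 3 * j) (α := α)
    (y := κ - 3 * j) hγ (by omega) (by omega) (by omega) (by omega) (by omega)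
  obtain ⟨K₂, s2, c2, n2, b2⟩ := one_round hT hD s1 (b := α + 2 * j)
    (α := α + 2 * j + c) (y := κ - K₁.ncard) hγ (by omega) (by omega) b1 (by omega) (by omega)
  obtain ⟨K₃, s3, c3, n3, b3⟩ := one_round hT hD (s1.trans s2) (b := α + 4 * j + c)
    (α := α + 4 * j + 2 * c) (y := κ - K₂.ncard) hγ (by omega) (by omega) (by omega) (by omega)
    (by omega)
  have hK3 : cc w K₃ < j := cc_lt_of_ncard hT.fam (by omega)
  omega

end H81.LR
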